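import Pool.Agent.H508R2.RK.Stm

/-! CNT: the deletion method. -/

namespace Pool.Agent.H508R2.RK

open Finset

open Classical in
theorem CNT_one {G : Type} [Fintype G] [Nonempty G] (S : G → G → G → Prop) (n m : ℕ) (σ : ℝ)
    (hσ : 0 ≤ σ)
    (hS : ∀ p q : G, p ≠ q → ((univ.filter (fun z => S p q z)).card : ℝ) ≤
      σ * (Fintype.card G : ℝ))
    (a b : Fin m) (hab : a ≠ b) (w : Fin n → Fin m) (hw : Function.Injective w)
    (hwa : ∀ i, w i ≠ a ∧ w i ≠ b) :
    ((univ.filter (fun f : Fin m → G => ∀ i, S (f a) (f b) (f (w i)))).card : ℝ) ≤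
      (Fintype.card G : ℝ) ^ m * (σ ^ n + 1 / (Fintype.card G : ℝ)) := by
  set g : ℝ := (Fintype.card G : ℝ) with hg
  have hg0 : 0 < g := by
    rw [hg]
    exact_mod_cast Fintype.card_pos
  set Z : G → G → Finset G := fun p q => univ.filter (fun z => S p q z) with hZ
  set t : G → G → Fin m → Finset G := fun p q c =>
    if c = a then {p} else if c = b then {q} else if c ∈ univ.image w then Z p q else univ with ht
  have hsub : (univ.filter (fun f : Fin m → G => ∀ i, S (f a) (f b) (f (w i)))) ⊆
      (univ : Finset (G × G)).biUnion (fun pq => Fintype.piFinset (t pq.1 pq.2)) := by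
    intro f hf
    rw [mem_filter] at hf
    rw [mem_biUnion]
    refine ⟨(f a, f b), mem_univ _, ?_⟩
    rw [Fintype.mem_piFinset]
    intro c
    simp only [ht]
    split_ifs with h1 h2 h3
    · rw [h1]; exact mem_singleton_self _
    · rw [h2]; exact mem_singleton_self _
    · rw [mem_image] at h3
      obtain ⟨i, _, rfl⟩ := h3
      rw [hZ, mem_filter]
      exact ⟨mem_univ _, hf.2 i⟩
    · exact mem_univ _
  have hcard : ∀ p q : G, ((Fintype.piFinset (t p q)).card : ℝ) =
      g ^ m * ((1 / g) * (1 / g) * (((Z p q).card : ℝ) / g) ^ n) := by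
    intro p q
    rw [Fintype.card_piFinset]
    push_cast
    have h1 : ∀ c : Fin m, ((t p q c).card : ℝ) =
        g * ((if c = a then 1 / g else 1) * (if c = b then 1 / g else 1) *
          (if c ∈ univ.image w then ((Z p q).card : ℝ) / g else 1)) := by
      intro c
      have hna : a ∉ univ.image w := by
        rw [mem_image]
        rintro ⟨i, _, h⟩
        exact (hwa i).1 h
      have hnb : b ∉ univ.image w := by
        rw [mem_image]
        rintro ⟨i, _, h⟩
        exact (hwa i).2 h
      simp only [ht]
      by_cases h1 : c = a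
      · subst h1
        rw [if_pos rfl, if_pos rfl, if_neg hab, if_neg hna]
        simp only [card_singleton]
        field_simp
        simp
      · by_cases h2 : c = b
        · subst h2
          rw [if_neg h1, if_pos rfl, if_neg h1, if_pos rfl, if_neg hnb]
          simp only [card_singleton]
          field_simp
          simp
        · by_cases h3 : c ∈ univ.image w
          · rw [if_neg h1, if_neg h2, if_pos h3, if_neg h1, if_neg h2, if_pos h3]
            field_simp
          · rw [if_neg h1, if_neg h2, if_neg h3, if_neg h1, if_neg h2, if_neg h3]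
            rw [card_univ]
            ring
    rw [Finset.prod_congr rfl fun c _ => h1 c, Finset.prod_mul_distrib, Finset.prod_mul_distrib,
      Finset.prod_mul_distrib, Finset.prod_const, Finset.prod_ite_eq', Finset.prod_ite_eq',
      if_pos (mem_univ _), if_pos (mem_univ _), Finset.prod_ite_mem, Finset.univ_inter,
      Finset.prod_const, Finset.card_image_of_injective _ hw, Finset.card_univ, Finset.card_univ,
      Fintype.card_fin, Fintype.card_fin]
  have hb : ∀ p q : G, ((Fintype.piFinset (t p q)).card : ℝ) ≤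
      g ^ m * ((1 / g) * (1 / g)) * (σ ^ n + if p = q then 1 else 0) := by
    intro p q
    rw [hcard, ← mul_assoc]
    apply mul_le_mul_of_nonneg_left _ (by positivity)
    by_cases hpq : p = q
    · rw [if_pos hpq]
      have h1 : ((Z p q).card : ℝ) / g ≤ 1 := by
        rw [div_le_one hg0, hg]
        exact_mod_cast card_le_univ _
      have h2 := pow_le_one₀ (n := n) (by positivity : 0 ≤ ((Z p q).card : ℝ) / g) h1
      have h3 : 0 ≤ σ ^ n := by positivity
      linarith
    · rw [if_neg hpq, add_zero]
      apply pow_le_pow_left₀ (by positivity)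
      rw [div_le_iff₀ hg0]
      exact hS p q hpq
  calc ((univ.filter (fun f : Fin m → G => ∀ i, S (f a) (f b) (f (w i)))).card : ℝ)
      ≤ ∑ pq : G × G, ((Fintype.piFinset (t pq.1 pq.2)).card : ℝ) := by
        have := (card_le_card hsub).trans card_biUnion_le
        exact_mod_cast this
    _ ≤ ∑ pq : G × G, g ^ m * ((1 / g) * (1 / g)) * (σ ^ n + if pq.1 = pq.2 then 1 else 0) :=
        sum_le_sum fun pq _ => hb pq.1 pq.2
    _ = g ^ m * (σ ^ n + 1 / g) := by
        rw [← Finset.mul_sum, Finset.sum_add_distrib, Finset.sum_const, Fintype.sum_prod_type]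
        simp only [Finset.sum_ite_eq, mem_univ, if_true, Finset.sum_const, nsmul_eq_mul, mul_one]
        rw [card_univ, card_univ, Fintype.card_prod]
        push_cast
        rw [← hg]
        field_simp

open Classical in
theorem t_CNT : S_CNT := by
  intro G _ _ S k m σ hk hσ hS hm
  set g : ℝ := (Fintype.card G : ℝ) with hg
  have hg0 : 0 < g := by
    rw [hg]
    exact_mod_cast Fintype.card_pos
  set good : Fin m × Fin m × (Fin (k - 1) → Fin m) → Prop := fun t =>
    t.1 ≠ t.2.1 ∧ Function.Injective t.2.2 ∧ ∀ i, t.2.2 i ≠ t.1 ∧ t.2.2 i ≠ t.2.1 with hgood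
  set bad : (Fin m → G) → Fin m × Fin m × (Fin (k - 1) → Fin m) → Prop := fun f t =>
    good t ∧ ∀ i, S (f t.1) (f t.2.1) (f (t.2.2 i)) with hbad
  have key : ∀ t, ((univ.filter (fun f : Fin m → G => bad f t)).card : ℝ) ≤
      g ^ m * (σ ^ (k - 1) + 1 / g) := by
    intro t
    by_cases ht : good t
    · refine le_trans ?_ (CNT_one S (k - 1) m σ hσ hS t.1 t.2.1 ht.1 t.2.2 ht.2.1 ht.2.2)
      apply Nat.cast_le.2
      apply card_le_card
      intro f hf
      rw [mem_filter] at hf ⊢
      exact ⟨mem_univ _, hf.2.2⟩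
    · have h0 : univ.filter (fun f : Fin m → G => bad f t) = ∅ := by
        rw [Finset.filter_eq_empty_iff]
        intro f _ hf
        exact ht hf.1
      rw [h0, card_empty, Nat.cast_zero]
      positivity
  -- double counting
  have hsum : ∑ f : Fin m → G, ((univ.filter (fun t => bad f t)).card : ℝ) ≤
      ∑ _f : Fin m → G, (m : ℝ) / 2 := by
    calc ∑ f : Fin m → G, ((univ.filter (fun t => bad f t)).card : ℝ)
        = ∑ t, ((univ.filter (fun f : Fin m → G => bad f t)).card : ℝ) := by
          simp only [Finset.card_filter]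
          push_cast
          exact Finset.sum_comm
      _ ≤ ∑ _t : Fin m × Fin m × (Fin (k - 1) → Fin m), g ^ m * (σ ^ (k - 1) + 1 / g) :=
          sum_le_sum fun t _ => key t
      _ = g ^ m * ((m : ℝ) ^ (k + 1) * (σ ^ (k - 1) + 1 / g)) := by
          rw [Finset.sum_const, card_univ, nsmul_eq_mul]
          have h1 : (Fintype.card (Fin m × Fin m × (Fin (k - 1) → Fin m)) : ℝ) =
              (m : ℝ) ^ (k + 1) := by
            rw [Fintype.card_prod, Fintype.card_prod, Fintype.card_fun, Fintype.card_fin,
              Fintype.card_fin]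
            push_cast
            have h2 : k + 1 = (k - 1) + 2 := by omega
            rw [h2, pow_add]
            ring
          rw [h1]
          ring
      _ ≤ g ^ m * ((m : ℝ) / 2) := mul_le_mul_of_nonneg_left hm (by positivity)
      _ = ∑ _f : Fin m → G, (m : ℝ) / 2 := by
          rw [Finset.sum_const, card_univ, nsmul_eq_mul, Fintype.card_fun, Fintype.card_fin]
          push_cast
          rfl
  obtain ⟨f, _, hf⟩ := Finset.exists_le_of_sum_le (s := (univ : Finset (Fin m → G)))
    ⟨fun _ => Classical.arbitrary G, mem_univ _⟩ hsum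
  set A : Finset (Fin m) := (univ.filter (fun t => bad f t)).image Prod.fst with hA
  have hAc : (A.card : ℝ) ≤ (m : ℝ) / 2 := by
    refine le_trans ?_ hf
    exact_mod_cast card_image_le
  refine ⟨f, Aᶜ, ?_, ?_⟩
  · have h1 : A.card + Aᶜ.card = m := by
      rw [Finset.card_add_card_compl, Fintype.card_fin]
    have h2 : (A.card : ℝ) + (Aᶜ.card : ℝ) = m := by exact_mod_cast h1
    linarith
  · rintro T hT hTc ⟨a, ha, b, hb, hab, hall⟩
    set W := (T.erase a).erase b with hW
    have hWc : W.card = k - 1 := by
      rw [hW, card_erase_of_mem (mem_erase.2 ⟨hab.symm, hb⟩), card_erase_of_mem ha, hTc]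
      omega
    have hWm : ∀ c ∈ W, c ≠ b ∧ c ≠ a ∧ c ∈ T := by
      intro c hc
      rw [hW, mem_erase, mem_erase] at hc
      exact hc
    have hbadt : bad f (a, b, W.orderEmbOfFin hWc) := by
      refine ⟨⟨hab, (W.orderEmbOfFin hWc).injective, fun i => ?_⟩, fun i => ?_⟩
      · have h1 := hWm _ (W.orderEmbOfFin_mem hWc i)
        exact ⟨h1.2.1, h1.1⟩
      · have h1 := hWm _ (W.orderEmbOfFin_mem hWc i)
        exact hall _ h1.2.2
    have haA : a ∈ A := by
      rw [hA, mem_image]
      exact ⟨_, mem_filter.2 ⟨mem_univ _, hbadt⟩, rfl⟩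
    exact (mem_compl.1 (hT ha)) haA

end Pool.Agent.H508R2.RK
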