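import Mathlib

/-! Equal disks in the unit disk with no line meeting more than `k` (MP_1780a9_co). -/

namespace Pool.Agent.H508R2.RK

/-- The plane. -/
abbrev P2 := EuclideanSpace ℝ (Fin 2)

/-- Twice the signed area of the triangle `a b c`. -/
def det3 (a b c : P2) : ℝ := (b 0 - a 0) * (c 1 - a 1) - (b 1 - a 1) * (c 0 - a 0)

/-- GEO: disks met by a common line. -/
def S_GEO : Prop := ∀ (ι : Type) (T : Finset ι) (x : ι → P2) (r : ℝ) (p u : P2), 2 ≤ T.card →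
  0 ≤ r → u ≠ 0 → (∀ i ∈ T, ∃ t : ℝ, dist (p + t • u) (x i) ≤ r) →
  ∃ a ∈ T, ∃ b ∈ T, a ≠ b ∧ ∀ c ∈ T, |det3 (x a) (x b) (x c)| ≤ 2 * r * dist (x a) (x b)

/-- the grid points -/
noncomputable def pos (M : ℕ) (z : Fin M × Fin M) : P2 :=
  !₂[((z.1 : ℕ) : ℝ) / (2 * M), ((z.2 : ℕ) : ℝ) / (2 * M)]

open Classical in
/-- GRD: grid points in a strip. -/
def S_GRD : Prop := ∀ (M : ℕ) (r : ℝ) (p q : Fin M × Fin M), 1 ≤ r * M → p ≠ q →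
  ((Finset.univ.filter (fun z : Fin M × Fin M =>
    |det3 (pos M p) (pos M q) (pos M z)| ≤ 2 * r * dist (pos M p) (pos M q))).card : ℝ) ≤
    13 * r * (M : ℝ) ^ 2

open Classical in
/-- CNT: the deletion method. -/
def S_CNT : Prop := ∀ (G : Type) [Fintype G] [Nonempty G] (S : G → G → G → Prop) (k m : ℕ)
  (σ : ℝ), 2 ≤ k → 0 ≤ σ →
  (∀ p q : G, p ≠ q → ((Finset.univ.filter (fun z => S p q z)).card : ℝ) ≤
    σ * (Fintype.card G : ℝ)) →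
  (m : ℝ) ^ (k + 1) * (σ ^ (k - 1) + 1 / (Fintype.card G : ℝ)) ≤ (m : ℝ) / 2 →
  ∃ (f : Fin m → G) (I : Finset (Fin m)), (m : ℝ) / 2 ≤ I.card ∧
    ∀ T ⊆ I, T.card = k + 1 → ¬ ∃ a ∈ T, ∃ b ∈ T, a ≠ b ∧ ∀ c ∈ T, S (f a) (f b) (f c)

end Pool.Agent.H508R2.RK
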