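import Mathlib
import Pool.Agent.H508R2.RK.Stm

/-! Assembly for MP_1780a9_co. -/

open Metric

namespace Pool.Agent.H508R2.RK

/-- The `n` closed disks of radius `r` with centres `x i` are contained in the closed unit disk and
every straight line `{p + t u}` meets at most `k` of them. -/
def IsConfig (k n : ℕ) (r : ℝ) (x : Fin n → EuclideanSpace ℝ (Fin 2)) : Prop :=
  (∀ i, closedBall (x i) r ⊆ closedBall 0 1) ∧
  ∀ p u : EuclideanSpace ℝ (Fin 2), u ≠ 0 →
    Nat.card {i : Fin n // ∃ t : ℝ, p + t • u ∈ closedBall (x i) r} ≤ k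

/-- `r_k(n)`: the supremum of the radii of such configurations. -/
noncomputable def rk (k n : ℕ) : ℝ := sSup {r : ℝ | 0 < r ∧ ∃ x, IsConfig k n r x}

lemma config_le_one {k n : ℕ} (hn : 1 ≤ n) {r : ℝ} (hr : 0 < r)
    {x : Fin n → EuclideanSpace ℝ (Fin 2)} (h : IsConfig k n r x) : r ≤ 1 := by
  have h0 := h.1 ⟨0, hn⟩
  set y := x ⟨0, hn⟩
  let e : EuclideanSpace ℝ (Fin 2) := EuclideanSpace.single 0 1
  have he : ‖e‖ = 1 := by simp [e]
  have h1 := h0 (show y + r • e ∈ closedBall y r by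
    simp [mem_closedBall, dist_eq_norm, norm_smul, he, abs_of_pos hr])
  have h2 := h0 (show y - r • e ∈ closedBall y r by
    simp [mem_closedBall, dist_eq_norm, norm_smul, he, abs_of_pos hr])
  rw [mem_closedBall, dist_zero_right] at h1 h2
  have h3 : ‖(2 * r) • e‖ ≤ 2 := by
    have : (2 * r) • e = (y + r • e) - (y - r • e) := by
      rw [two_mul, add_smul]; abel
    rw [this]
    exact (norm_sub_le _ _).trans (by linarith)
  rw [norm_smul, he, mul_one, Real.norm_eq_abs, abs_of_nonneg (by linarith)] at h3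
  linarith

lemma pos_norm (M : ℕ) (z : Fin M × Fin M) : ‖pos M z‖ ≤ 71 / 100 := by
  have hM : (0 : ℝ) < M := by
    have := z.1.2
    have h : 0 < M := by omega
    exact_mod_cast h
  have h1 : (((z.1 : ℕ) : ℝ) / (2 * M)) ^ 2 ≤ 1 / 4 := by
    have h : ((z.1 : ℕ) : ℝ) ≤ M := by exact_mod_cast z.1.2.le
    have h0 : (0 : ℝ) ≤ ((z.1 : ℕ) : ℝ) := Nat.cast_nonneg _
    have h2 : ((z.1 : ℕ) : ℝ) / (2 * M) ≤ 1 / 2 := by
      rw [div_le_div_iff₀ (by positivity) (by norm_num)]; linarith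
    have h3 : 0 ≤ ((z.1 : ℕ) : ℝ) / (2 * M) := by positivity
    nlinarith
  have h2 : (((z.2 : ℕ) : ℝ) / (2 * M)) ^ 2 ≤ 1 / 4 := by
    have h : ((z.2 : ℕ) : ℝ) ≤ M := by exact_mod_cast z.2.2.le
    have h0 : (0 : ℝ) ≤ ((z.2 : ℕ) : ℝ) := Nat.cast_nonneg _
    have h2 : ((z.2 : ℕ) : ℝ) / (2 * M) ≤ 1 / 2 := by
      rw [div_le_div_iff₀ (by positivity) (by norm_num)]; linarith
    have h3 : 0 ≤ ((z.2 : ℕ) : ℝ) / (2 * M) := by positivity
    nlinarith
  have h3 : ‖pos M z‖ ^ 2 ≤ 1 / 2 := by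
    rw [EuclideanSpace.norm_sq_eq, Fin.sum_univ_two]
    simp only [pos, Real.norm_eq_abs, sq_abs, Matrix.cons_val_zero, Matrix.cons_val_one]
    linarith
  have h4 : 0 ≤ ‖pos M z‖ := norm_nonneg _
  nlinarith

/-- The existence statement. -/
theorem exists_config (hGEO : S_GEO) (hGRD : S_GRD) (hCNT : S_CNT) (k n : ℕ) (hk : 2 ≤ k)
    (hn : 1 ≤ n) (r : ℝ) (hr : 0 < r) (hr1 : r ≤ 1 / 4)
    (hr2 : (2 * (n : ℝ)) ^ k * (13 * r) ^ (k - 1) ≤ 1 / 4) : ∃ x, IsConfig k n r x := by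
  classical
  have hnpos : (0 : ℝ) < n := by exact_mod_cast hn
  -- the grid
  obtain ⟨M, hM⟩ := exists_nat_ge (max (1 / r) (4 * (2 * (n : ℝ)) ^ k))
  have hM1 : 1 / r ≤ M := (le_max_left _ _).trans hM
  have hM2 : 4 * (2 * (n : ℝ)) ^ k ≤ M := (le_max_right _ _).trans hM
  have hrM : 1 ≤ r * M := by
    rw [div_le_iff₀ hr] at hM1
    linarith
  have hMr : (0 : ℝ) < M := by
    have : (0 : ℝ) < 4 * (2 * (n : ℝ)) ^ k := by positivity
    linarith
  have hMpos : 0 < M := by exact_mod_cast hMr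
  have hM1' : (1 : ℝ) ≤ M := by exact_mod_cast hMpos
  haveI : Nonempty (Fin M × Fin M) := ⟨(⟨0, hMpos⟩, ⟨0, hMpos⟩)⟩
  have hcardG : (Fintype.card (Fin M × Fin M) : ℝ) = (M : ℝ) ^ 2 := by
    rw [Fintype.card_prod, Fintype.card_fin]; push_cast; ring
  obtain ⟨f, I, hI, hT⟩ := hCNT (Fin M × Fin M)
    (fun p q z => |det3 (pos M p) (pos M q) (pos M z)| ≤ 2 * r * dist (pos M p) (pos M q))
    k (2 * n) (13 * r) hk (by positivity)
    (by
      intro p q hpq
      rw [hcardG]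
      exact hGRD M r p q hrM hpq)
    (by
      rw [hcardG]
      push_cast
      have e1 : (2 * (n : ℝ)) ^ (k + 1) * ((13 * r) ^ (k - 1) + 1 / (M : ℝ) ^ 2) =
          (2 * n) * ((2 * (n : ℝ)) ^ k * (13 * r) ^ (k - 1)) +
          (2 * n) * ((2 * (n : ℝ)) ^ k / (M : ℝ) ^ 2) := by
        rw [pow_succ]; ring
      rw [e1]
      have e2 : (2 * (n : ℝ)) ^ k / (M : ℝ) ^ 2 ≤ 1 / 4 := by
        rw [div_le_div_iff₀ (by positivity) (by norm_num)]
        nlinarith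
      have h3 : (2 * (n : ℝ)) * ((2 * (n : ℝ)) ^ k * (13 * r) ^ (k - 1)) ≤ (2 * n) * (1 / 4) :=
        mul_le_mul_of_nonneg_left hr2 (by positivity)
      have h4 : (2 * (n : ℝ)) * ((2 * (n : ℝ)) ^ k / (M : ℝ) ^ 2) ≤ (2 * n) * (1 / 4) :=
        mul_le_mul_of_nonneg_left e2 (by positivity)
      linarith)
  have hIn : n ≤ I.card := by
    push_cast at hI
    have : (n : ℝ) ≤ I.card := by linarith
    exact_mod_cast this
  obtain ⟨I', hI', hcard⟩ := Finset.exists_subset_card_eq hIn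
  let e := I'.orderEmbOfFin hcard
  refine ⟨fun i => pos M (f (e i)), ?_, ?_⟩
  · intro i y hy
    rw [mem_closedBall] at hy ⊢
    have h1 := pos_norm M (f (e i))
    calc dist y 0 ≤ dist y (pos M (f (e i))) + dist (pos M (f (e i))) 0 := dist_triangle _ _ _
      _ ≤ r + 71 / 100 := by
          rw [dist_zero_right]
          linarith
      _ ≤ 1 := by linarith
  · intro p u hu
    by_contra hcon
    push Not at hcon
    rw [Nat.card_eq_fintype_card, Fintype.card_subtype] at hcon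
    obtain ⟨T', hT', hT'c⟩ := Finset.exists_subset_card_eq (Nat.succ_le_of_lt hcon)
    let T : Finset (Fin (2 * n)) := T'.map e.toEmbedding
    have hTI : T ⊆ I := by
      intro j hj
      obtain ⟨i, _, rfl⟩ := Finset.mem_map.mp hj
      exact hI' (Finset.orderEmbOfFin_mem I' hcard i)
    have hTc : T.card = k + 1 := by
      rw [Finset.card_map]; exact hT'c
    apply hT T hTI hTc
    exact hGEO (Fin (2 * n)) T (fun j => pos M (f j)) r p u (by omega) hr.le hu (by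
      intro j hj
      obtain ⟨i, hi, rfl⟩ := Finset.mem_map.mp hj
      have := (Finset.mem_filter.mp (hT' hi)).2
      obtain ⟨t, ht⟩ := this
      exact ⟨t, by simpa [mem_closedBall] using ht⟩)

theorem main (hGEO : S_GEO) (hGRD : S_GRD) (hCNT : S_CNT) (k : ℕ) (hk : 2 ≤ k) :
    ∃ c : ℝ, 0 < c ∧ ∀ n : ℕ, 1 ≤ n → c * (n : ℝ) ^ (-((k : ℝ) / ((k : ℝ) - 1))) ≤ rk k n := by
  set c : ℝ := 1 / (13 * 2 ^ (k + 2)) with hc
  have hcpos : 0 < c := by positivity
  refine ⟨c, hcpos, ?_⟩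
  intro n hn
  have hnpos : (0 : ℝ) < n := by exact_mod_cast hn
  have hn1 : (1 : ℝ) ≤ n := by exact_mod_cast hn
  have hk1 : (0 : ℝ) < (k : ℝ) - 1 := by
    have : (2 : ℝ) ≤ k := by exact_mod_cast hk
    linarith
  set r : ℝ := c * (n : ℝ) ^ (-((k : ℝ) / ((k : ℝ) - 1))) with hr
  have hrpos : 0 < r := mul_pos hcpos (Real.rpow_pos_of_pos hnpos _)
  have hpow_le : (n : ℝ) ^ (-((k : ℝ) / ((k : ℝ) - 1))) ≤ 1 := by
    apply Real.rpow_le_one_of_one_le_of_nonpos hn1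
    have : 0 ≤ (k : ℝ) / ((k : ℝ) - 1) := by positivity
    linarith
  have hc4 : c ≤ 1 / 4 := by
    rw [hc]
    apply one_div_le_one_div_of_le (by norm_num)
    have : (1 : ℝ) ≤ 2 ^ (k + 2) := one_le_pow₀ (by norm_num)
    linarith
  have hr1 : r ≤ 1 / 4 := by
    calc r ≤ c * 1 := mul_le_mul_of_nonneg_left hpow_le hcpos.le
      _ ≤ 1 / 4 := by linarith
  have hr2 : (2 * (n : ℝ)) ^ k * (13 * r) ^ (k - 1) ≤ 1 / 4 := by
    have e0 : 13 * r = (1 / 2 ^ (k + 2)) * (n : ℝ) ^ (-((k : ℝ) / ((k : ℝ) - 1))) := by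
      rw [hr, hc]; field_simp
    have e1 : ((n : ℝ) ^ (-((k : ℝ) / ((k : ℝ) - 1)))) ^ (k - 1) = (n : ℝ) ^ (-(k : ℝ)) := by
      rw [← Real.rpow_natCast, ← Real.rpow_mul hnpos.le]
      congr 1
      rw [Nat.cast_sub (by omega)]
      push_cast
      field_simp
    rw [e0, mul_pow, mul_pow, e1, Real.rpow_neg hnpos.le, Real.rpow_natCast]
    have e2 : 2 ^ k * (n : ℝ) ^ k * ((1 / 2 ^ (k + 2)) ^ (k - 1) * ((n : ℝ) ^ k)⁻¹) =
        2 ^ k * (1 / 2 ^ (k + 2)) ^ (k - 1) := by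
      have : (n : ℝ) ^ k ≠ 0 := by positivity
      field_simp
    rw [e2]
    have e3 : (1 / (2 : ℝ) ^ (k + 2)) ^ (k - 1) ≤ 1 / 2 ^ (k + 2) := by
      apply pow_le_of_le_one (by positivity) _ (by omega)
      rw [div_le_one (by positivity)]
      exact one_le_pow₀ (by norm_num)
    calc (2 : ℝ) ^ k * (1 / 2 ^ (k + 2)) ^ (k - 1) ≤ 2 ^ k * (1 / 2 ^ (k + 2)) :=
          mul_le_mul_of_nonneg_left e3 (by positivity)
      _ = 1 / 4 := by
          rw [pow_add]; field_simp; norm_num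
  obtain ⟨x, hx⟩ := exists_config hGEO hGRD hCNT k n hk hn r hrpos hr1 hr2
  apply le_csSup
  · exact ⟨1, fun s hs => by
      obtain ⟨hs0, y, hy⟩ := hs
      exact config_le_one hn hs0 hy⟩
  · exact ⟨hrpos, x, hx⟩

end Pool.Agent.H508R2.RK
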