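import Pool.Agent.H508R2.RK.Stm

/-! GEO: disks met by a common line. -/

namespace Pool.Agent.H508R2.RK

theorem geo_dist (x y : P2) : dist x y ^ 2 = (x 0 - y 0) ^ 2 + (x 1 - y 1) ^ 2 := by
  rw [EuclideanSpace.dist_eq, Real.sq_sqrt (Finset.sum_nonneg fun _ _ => sq_nonneg _),
    Fin.sum_univ_two, Real.dist_eq, Real.dist_eq, sq_abs, sq_abs]

theorem t_GEO : S_GEO := by
  intro ι T x r p u hcard hr hu hline
  classical
  set N : ℝ := u 0 ^ 2 + u 1 ^ 2 with hN
  have hNpos : 0 < N := by
    rw [hN]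
    rcases eq_or_ne (u 0) 0 with h0 | h0
    · rcases eq_or_ne (u 1) 0 with h1 | h1
      · exact absurd (by
          ext i
          fin_cases i
          · simpa using h0
          · simpa using h1) hu
      · positivity
    · positivity
  set m : ℝ := Real.sqrt N with hm
  have hmpos : 0 < m := Real.sqrt_pos.2 hNpos
  have hm2 : m ^ 2 = N := Real.sq_sqrt hNpos.le
  set t : ι → ℝ := fun i => (x i 0 - p 0) * u 0 + (x i 1 - p 1) * u 1 with ht
  set s : ι → ℝ := fun i => (x i 1 - p 1) * u 0 - (x i 0 - p 0) * u 1 with hs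
  have hsb : ∀ i ∈ T, |s i| ≤ r * m := by
    intro i hi
    obtain ⟨a, ha⟩ := hline i hi
    have h1 : dist (p + a • u) (x i) ^ 2 ≤ r ^ 2 := pow_le_pow_left₀ dist_nonneg ha 2
    rw [geo_dist] at h1
    have e0 : (p + a • u) 0 = p 0 + a * u 0 := by simp
    have e1 : (p + a • u) 1 = p 1 + a * u 1 := by simp
    rw [e0, e1] at h1
    set A : ℝ := p 0 + a * u 0 - x i 0 with hA
    set B : ℝ := p 1 + a * u 1 - x i 1 with hB
    have e2 : s i = A * u 1 - B * u 0 := by
      simp only [hs, hA, hB]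
      ring
    have h2 : s i ^ 2 ≤ (r * m) ^ 2 := by
      rw [e2, mul_pow, hm2, hN]
      have h3 : (A * u 1 - B * u 0) ^ 2 ≤ (A ^ 2 + B ^ 2) * (u 0 ^ 2 + u 1 ^ 2) := by
        nlinarith [sq_nonneg (A * u 0 + B * u 1)]
      refine h3.trans ?_
      gcongr
    exact abs_le_of_sq_le_sq h2 (by positivity)
  have htb : ∀ i j, t j - t i ≤ m * dist (x i) (x j) := by
    intro i j
    have h2 : (t j - t i) ^ 2 ≤ (m * dist (x i) (x j)) ^ 2 := by
      rw [mul_pow, hm2, geo_dist, hN]
      have e : t j - t i = (x j 0 - x i 0) * u 0 + (x j 1 - x i 1) * u 1 := by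
        simp only [ht]
        ring
      rw [e]
      nlinarith [sq_nonneg ((x j 0 - x i 0) * u 1 - (x j 1 - x i 1) * u 0)]
    exact (le_abs_self _).trans (abs_le_of_sq_le_sq h2 (by positivity))
  have hTne : T.Nonempty := Finset.card_pos.1 (by omega)
  obtain ⟨a, haT, ha⟩ := Finset.exists_min_image T t hTne
  have hEne : (T.erase a).Nonempty := by
    apply Finset.card_pos.1
    rw [Finset.card_erase_of_mem haT]
    omega
  obtain ⟨b, hbE, hb⟩ := Finset.exists_max_image (T.erase a) t hEne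
  have hbT : b ∈ T := Finset.mem_of_mem_erase hbE
  have hba : b ≠ a := Finset.ne_of_mem_erase hbE
  refine ⟨a, haT, b, hbT, hba.symm, fun c hcT => ?_⟩
  rcases eq_or_ne c a with hca | hca
  · subst hca
    have : det3 (x c) (x b) (x c) = 0 := by simp [det3]
    rw [this, abs_zero]
    positivity
  · have h1 : t a ≤ t c := ha c hcT
    have h2 : t c ≤ t b := hb c (Finset.mem_erase.2 ⟨hca, hcT⟩)
    have e : N * det3 (x a) (x b) (x c) =
        (t b - t c) * (s c - s a) + (t c - t a) * (s c - s b) := by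
      simp only [hN, det3, ht, hs]
      ring
    have h3 := abs_le.1 (hsb a haT)
    have h4 := abs_le.1 (hsb b hbT)
    have h5 := abs_le.1 (hsb c hcT)
    have h6 : |s c - s a| ≤ 2 * (r * m) := by
      rw [abs_le]; constructor <;> linarith
    have h7 : |s c - s b| ≤ 2 * (r * m) := by
      rw [abs_le]; constructor <;> linarith
    have h8 : |N * det3 (x a) (x b) (x c)| ≤ (t b - t a) * (2 * (r * m)) := by
      rw [e]
      refine (abs_add_le _ _).trans ?_
      rw [abs_mul, abs_mul, abs_of_nonneg (sub_nonneg.2 h1), abs_of_nonneg (sub_nonneg.2 h2)]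
      have h9 : (t b - t c) * |s c - s a| ≤ (t b - t c) * (2 * (r * m)) :=
        mul_le_mul_of_nonneg_left h6 (sub_nonneg.2 h2)
      have h10 : (t c - t a) * |s c - s b| ≤ (t c - t a) * (2 * (r * m)) :=
        mul_le_mul_of_nonneg_left h7 (sub_nonneg.2 h1)
      nlinarith
    have h11 : (t b - t a) * (2 * (r * m)) ≤ N * (2 * r * dist (x a) (x b)) := by
      have h12 := mul_le_mul_of_nonneg_right (htb a b) (show 0 ≤ 2 * (r * m) by positivity)
      refine h12.trans (le_of_eq ?_)
      rw [← hm2]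
      ring
    rw [abs_mul, abs_of_pos hNpos] at h8
    exact le_of_mul_le_mul_left (h8.trans h11) hNpos

end Pool.Agent.H508R2.RK
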