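import Pool.Agent.H508R2.RK.Stm

/-! GRD: grid points in a strip. -/

namespace Pool.Agent.H508R2.RK

theorem grd_line (A : Finset ℕ) (c L : ℝ) (hL : 0 ≤ L) (h : ∀ z ∈ A, |(z : ℝ) - c| ≤ L) :
    (A.card : ℝ) ≤ 2 * L + 1 := by
  rcases A.eq_empty_or_nonempty with rfl | hne
  · simp only [Finset.card_empty, Nat.cast_zero]; linarith
  · have h1 : A ⊆ Finset.Icc (A.min' hne) (A.max' hne) := fun z hz =>
      Finset.mem_Icc.2 ⟨A.min'_le z hz, A.le_max' z hz⟩
    have h2 := Finset.card_le_card h1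
    rw [Nat.card_Icc] at h2
    have h3 := abs_le.1 (h _ (A.min'_mem hne))
    have h4 := abs_le.1 (h _ (A.max'_mem hne))
    have h5 : A.min' hne ≤ A.max' hne := A.min'_le _ (A.max'_mem hne)
    have h6 : (A.card : ℝ) ≤ ((A.max' hne + 1 - A.min' hne : ℕ) : ℝ) := by exact_mod_cast h2
    rw [Nat.cast_sub (by omega)] at h6
    push_cast at h6
    linarith [h3.1, h4.2]

theorem grd_half (M : ℕ) (a b s t x L : ℝ) (ha : 0 < |a|) (hL : 0 ≤ L)
    (P : Fin M → Prop) [DecidablePred P]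
    (hP : ∀ y : Fin M, P y → |a * (((y : ℕ) : ℝ) - s) - b * (x - t)| ≤ L * |a|) :
    (((Finset.univ : Finset (Fin M)).filter P).card : ℝ) ≤ 2 * L + 1 := by
  have h1 := grd_line (((Finset.univ : Finset (Fin M)).filter P).map Fin.valEmbedding)
    (s + b * (x - t) / a) L hL (by
      intro z hz
      obtain ⟨y, hy, rfl⟩ := Finset.mem_map.1 hz
      have h2 := hP y (Finset.mem_filter.1 hy).2
      have ha' : a ≠ 0 := abs_pos.1 ha
      have h3 : |((y : ℕ) : ℝ) - (s + b * (x - t) / a)| * |a| ≤ L * |a| := by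
        rw [← abs_mul]
        have h4 : (((y : ℕ) : ℝ) - (s + b * (x - t) / a)) * a =
            a * (((y : ℕ) : ℝ) - s) - b * (x - t) := by
          field_simp
          ring
        rw [h4]
        exact h2
      exact le_of_mul_le_mul_right h3 ha)
  rwa [Finset.card_map] at h1

theorem t_GRD : S_GRD := by
  classical
  intro M r p q hrM hpq
  have hM : 0 < M := p.1.pos
  have hM' : (0 : ℝ) < M := by exact_mod_cast hM
  have hr : 0 < r := by
    by_contra h
    have := mul_nonpos_of_nonpos_of_nonneg (not_lt.1 h) hM'.le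
    linarith
  obtain ⟨α, hα⟩ : ∃ α : ℝ, α = ((q.1 : ℕ) : ℝ) - ((p.1 : ℕ) : ℝ) := ⟨_, rfl⟩
  obtain ⟨β, hβ⟩ : ∃ β : ℝ, β = ((q.2 : ℕ) : ℝ) - ((p.2 : ℕ) : ℝ) := ⟨_, rfl⟩
  have hαβ : ¬ (α = 0 ∧ β = 0) := by
    rintro ⟨h1, h2⟩
    rw [hα, sub_eq_zero] at h1
    rw [hβ, sub_eq_zero] at h2
    apply hpq
    ext
    · exact_mod_cast h1.symm
    · exact_mod_cast h2.symm
  have hdet : ∀ z, det3 (pos M p) (pos M q) (pos M z) =
      (α * (((z.2 : ℕ) : ℝ) - ((p.2 : ℕ) : ℝ)) - β * (((z.1 : ℕ) : ℝ) - ((p.1 : ℕ) : ℝ))) /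
        (4 * (M : ℝ) ^ 2) := by
    intro z
    simp only [det3, pos, hα, hβ, PiLp.toLp_apply, Matrix.cons_val_zero, Matrix.cons_val_one]
    field_simp
    ring
  have hdist : dist (pos M p) (pos M q) = Real.sqrt ((α ^ 2 + β ^ 2) / (4 * (M : ℝ) ^ 2)) := by
    rw [EuclideanSpace.dist_eq]
    congr 1
    simp only [Fin.sum_univ_two, Real.dist_eq, sq_abs, pos, hα, hβ, PiLp.toLp_apply,
      Matrix.cons_val_zero, Matrix.cons_val_one]
    field_simp
    ring
  have hle : ∀ γ : ℝ, 0 ≤ γ → α ^ 2 ≤ γ ^ 2 → β ^ 2 ≤ γ ^ 2 →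
      dist (pos M p) (pos M q) ≤ 3 / 2 * γ / (2 * M) := by
    intro γ h0 h1 h2
    rw [hdist]
    refine Real.sqrt_le_iff.2 ⟨by positivity, ?_⟩
    rw [div_pow, mul_pow, mul_pow, div_le_div_iff₀ (by positivity) (by positivity)]
    have h3 : α ^ 2 + β ^ 2 ≤ 9 / 4 * γ ^ 2 := by nlinarith [sq_nonneg γ]
    have h4 : (0 : ℝ) ≤ 4 * (M : ℝ) ^ 2 := by positivity
    calc (α ^ 2 + β ^ 2) * (2 ^ 2 * (M : ℝ) ^ 2) = (α ^ 2 + β ^ 2) * (4 * (M : ℝ) ^ 2) := by ring
      _ ≤ (9 / 4 * γ ^ 2) * (4 * (M : ℝ) ^ 2) := mul_le_mul_of_nonneg_right h3 h4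
      _ = (3 / 2) ^ 2 * γ ^ 2 * (4 * (M : ℝ) ^ 2) := by ring
  have hkey : ∀ γ : ℝ, 0 ≤ γ → α ^ 2 ≤ γ ^ 2 → β ^ 2 ≤ γ ^ 2 → ∀ z : Fin M × Fin M,
      |det3 (pos M p) (pos M q) (pos M z)| ≤ 2 * r * dist (pos M p) (pos M q) →
      |α * (((z.2 : ℕ) : ℝ) - ((p.2 : ℕ) : ℝ)) - β * (((z.1 : ℕ) : ℝ) - ((p.1 : ℕ) : ℝ))| ≤
        6 * (r * M) * γ := by
    intro γ h0 h1 h2 z hz
    have h3 := hz.trans (mul_le_mul_of_nonneg_left (hle γ h0 h1 h2) (by positivity))
    rw [hdet, abs_div, abs_of_pos (show (0 : ℝ) < 4 * (M : ℝ) ^ 2 by positivity),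
      div_le_iff₀ (by positivity)] at h3
    refine h3.trans (le_of_eq ?_)
    field_simp
    ring
  have hL : (0 : ℝ) ≤ 6 * (r * M) := by positivity
  have hfin : (M : ℝ) * (2 * (6 * (r * M)) + 1) ≤ 13 * r * (M : ℝ) ^ 2 := by
    have h1 : (M : ℝ) * 1 ≤ M * (r * M) := mul_le_mul_of_nonneg_left hrM hM'.le
    nlinarith
  refine le_trans ?_ hfin
  rw [Finset.card_filter]
  rcases le_total |β| |α| with hc | hc
  · have hγ : 0 < |α| := by
      refine lt_of_le_of_ne (abs_nonneg _) fun h => hαβ ?_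
      have h1 : α = 0 := abs_eq_zero.1 h.symm
      refine ⟨h1, ?_⟩
      rw [h1, abs_zero] at hc
      exact abs_eq_zero.1 (le_antisymm hc (abs_nonneg _))
    rw [Fintype.sum_prod_type]
    push_cast
    calc _ ≤ ∑ _x : Fin M, (2 * (6 * (r * M)) + 1) := by
          refine Finset.sum_le_sum fun x _ => ?_
          have h1 := grd_half M α β ((p.2 : ℕ) : ℝ) ((p.1 : ℕ) : ℝ) ((x : ℕ) : ℝ) (6 * (r * M)) hγ hL
            (fun y => |det3 (pos M p) (pos M q) (pos M (x, y))| ≤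
              2 * r * dist (pos M p) (pos M q))
            (fun y hy => hkey |α| (abs_nonneg _) (sq_abs α).symm.le (by
              rw [← sq_abs β]; exact pow_le_pow_left₀ (abs_nonneg _) hc 2) (x, y) hy)
          rw [Finset.card_filter] at h1
          push_cast at h1
          exact h1
      _ = M * (2 * (6 * (r * M)) + 1) := by
          rw [Finset.sum_const, Finset.card_univ, Fintype.card_fin, nsmul_eq_mul]
  · have hγ : 0 < |β| := by
      refine lt_of_le_of_ne (abs_nonneg _) fun h => hαβ ?_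
      have h1 : β = 0 := abs_eq_zero.1 h.symm
      refine ⟨?_, h1⟩
      rw [h1, abs_zero] at hc
      exact abs_eq_zero.1 (le_antisymm hc (abs_nonneg _))
    rw [Fintype.sum_prod_type_right]
    push_cast
    calc _ ≤ ∑ _x : Fin M, (2 * (6 * (r * M)) + 1) := by
          refine Finset.sum_le_sum fun x _ => ?_
          have h1 := grd_half M β α ((p.1 : ℕ) : ℝ) ((p.2 : ℕ) : ℝ) ((x : ℕ) : ℝ) (6 * (r * M)) hγ hL
            (fun y => |det3 (pos M p) (pos M q) (pos M (y, x))| ≤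
              2 * r * dist (pos M p) (pos M q))
            (fun y hy => by
              rw [abs_sub_comm]
              exact hkey |β| (abs_nonneg _) (by
                rw [← sq_abs α]; exact pow_le_pow_left₀ (abs_nonneg _) hc 2)
                (sq_abs β).symm.le (y, x) hy)
          rw [Finset.card_filter] at h1
          push_cast at h1
          exact h1
      _ = M * (2 * (6 * (r * M)) + 1) := by
          rw [Finset.sum_const, Finset.card_univ, Fintype.card_fin, nsmul_eq_mul]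

end Pool.Agent.H508R2.RK
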