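import Pool.Agent.H508R2.RK.Fin
import Pool.Agent.H508R2.RK.GEO
import Pool.Agent.H508R2.RK.GRD
import Pool.Agent.H508R2.RK.CNT

/-! Main theorem for MP_1780a9_co. -/

namespace Pool.Agent.H508R2.RK

theorem final (k : ℕ) (hk : 2 ≤ k) :
    ∃ c : ℝ, 0 < c ∧ ∀ n : ℕ, 1 ≤ n → c * (n : ℝ) ^ (-((k : ℝ) / ((k : ℝ) - 1))) ≤ rk k n :=
  main t_GEO t_GRD t_CNT k hk

end Pool.Agent.H508R2.RK
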